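import Pool.Agent.Lib.BCS.Adm
import Pool.Agent.Lib.BT.GM

/-! Comparison of the two descriptions of the class. -/

namespace Pool.Agent.Lib.BCS

theorem Adm.toBT {G : Type} [Group G] [TopologicalSpace G] (h : Adm G) : BT.Adm G := by
  induction h with
  | sl K n => exact .sl K n
  | form K n h2 s hs hs' J ε hJ hd G hG => exact .form K n h2 s hs hs' J ε hJ hd G hG
  | stab K n ι a σ t hσ hcl G hG =>
    have e : G = BT.stab σ t := Subgroup.ext hG
    subst e
    exact .stab K n ι a σ t hσ hcl
  | slR n => exact .slR n
  | alg n G hG hT => exact .alg n G hG hT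
  | real n G hG => exact .real n G hG
  | prod G H _ _ hG hH => exact .prod G H hG hH
  | iso G H e _ hH => exact .iso G H e hH

end Pool.Agent.Lib.BCS
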