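import Pool.Agent.Lib.BCS.Onto
import Pool.Agent.Lib.BCH.All

/-! The main theorem in the language of `BCS.Defs`. -/

noncomputable section

open scoped ZeroAtInfty InnerProductSpace

namespace Pool.Agent.Lib.BCS

open Pool.Agent.Lib.BCH

open OnePoint in
theorem suspOnto {R J B Q I : Type}
    [NonUnitalNormedRing R] [NormedSpace ℝ R] [IsScalarTower ℝ R R] [SMulCommClass ℝ R R]
    [NonUnitalNormedRing J] [NormedSpace ℝ J] [IsScalarTower ℝ J J] [SMulCommClass ℝ J J]
    [NormedRing B] [NormedAlgebra ℝ B]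
    [NonUnitalNormedRing Q] [NormedSpace ℝ Q] [IsScalarTower ℝ Q Q] [SMulCommClass ℝ Q Q]
    [CompleteSpace J] [CompleteSpace B] [CompleteSpace Q] (E : Ext J B Q) (hi : Isometry E.ι)
    (hp : Continuous E.π) (n : ℕ) (h : ∀ (k : ℕ) (c : Matrix (Fin k) (Fin k) ℝ)
      (e : Matrix (Fin k) (Fin k) C(OnePoint (EuclideanSpace ℝ (Fin n)), B)), e * e = e →
      c * c = c → (∀ i j y, ∃ a, e i j y = c i j • 1 + E.ι a) →
      cls e = cls (c.map fun r => (r • 1 : C(OnePoint (EuclideanSpace ℝ (Fin n)), B))))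
    (θ : R →ₙₐ[ℝ] J) (hθ : Continuous θ) (D : MorData I θ) :
    SuspOnto (EuclideanSpace ℝ (Fin n)) θ E.ι := by
  have hb := stSTAB R J I θ hθ n D
  refine .intro C₀(EuclideanSpace ℝ (Fin n), Q) (postC0 _ θ hθ) (E.susp hi hp n)
    (fun _ _ => rfl) (fun _ _ => rfl) ⟨⟨fun x hx => map_mem_K0r _ hx, fun x hx y hy hxy => ?_,
      fun y hy => ?_⟩, fun y hy => (E.susp hi hp n).exists_indexOf ?_⟩
  · exact congrArg Subtype.val (hb.1 (a₁ := ⟨x, hx⟩) (a₂ := ⟨y, hy⟩) (Subtype.ext hxy))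
  · obtain ⟨x, hx⟩ := hb.2 ⟨y, hy⟩
    exact ⟨x.1, x.2, congrArg Subtype.val hx⟩
  · exact SPLIT.fin (EuclideanSpace ℝ (Fin n)) B (E.susp hi hp n).ι (fun k c a e he hc h1 h2 =>
      h k c e he hc fun i j y => by
        induction y using OnePoint.rec with
        | infty => exact ⟨0, by rw [map_zero, add_zero]; exact h1 i j⟩
        | coe t => exact ⟨a i j t, h2 i j t⟩) _ (map_mem_K0r _ hy)

variable {Γ X Z : Type} [Group Γ] [MetricSpace X] [MulAction Γ Z] {pos : Z → X}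

theorem ent_eq (T : Op Z) (a b : Z) : ent (delta Z) T a b = entry T a b := by
  simp [ent, delta, entry, lp.inner_single_left]

theorem isMul_iff (φ : C₀(X, ℝ)) (M : Op Z) : IsMul (delta Z) pos φ M ↔ M = rep pos φ := by
  classical
  have h0 : ∀ z, rep pos φ (delta Z z) = φ (pos z) • delta Z z := fun z => lp.ext (funext fun w => by
    change φ (pos w) * delta Z z w = φ (pos z) * delta Z z w
    by_cases h : w = z
    · rw [h]
    · simp [delta, lp.single_apply, h])
  refine ⟨fun h => entry_ext fun a b => ?_, fun h z => h ▸ h0 z⟩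
  exact congrArg (fun ξ : H Z => ξ a) ((h b).trans (h0 b).symm)

theorem controlled_iff (T : Op Z) :
    Controlled Γ (delta Z) pos T ↔ Invariant Γ T ∧ FinProp pos T := by
  simp only [Controlled, ent_eq, Invariant, FinProp]

theorem Dstar_eq : Dstar Γ (delta Z) pos = BCH.Dstar Γ pos := by
  have h : {T : Op Z | Controlled Γ (delta Z) pos T ∧ Pseudolocal (delta Z) pos T} =
      {T | Invariant Γ T ∧ FinProp pos T ∧ BCH.Pseudolocal pos T} := Set.ext fun T => by
    simp only [Set.mem_ofPred_eq, controlled_iff, isMul_iff, forall_eq, Pseudolocal,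
      BCH.Pseudolocal, Cpt, and_assoc]
  exact congrArg (fun s : Set (Op Z) => (Algebra.adjoin ℝ s).topologicalClosure) h

theorem Cstar_eq : Cstar Γ (delta Z) pos = BCH.Cstar Γ pos := by
  have h : {T : Op Z | Controlled Γ (delta Z) pos T ∧ LocCompact (delta Z) pos T} =
      {T | Invariant Γ T ∧ FinProp pos T ∧ BCH.LocCompact pos T} := Set.ext fun T => by
    simp only [Set.mem_ofPred_eq, controlled_iff, isMul_iff, forall_eq, LocCompact,
      BCH.LocCompact, Cpt, and_assoc]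
  exact congrArg (fun s : Set (Op Z) => (NonUnitalAlgebra.adjoin ℝ s).topologicalClosure) h

open Classical in
theorem Cred_eq : Cred Γ (delta Γ) = BCH.Cred Γ := by
  have h : {T : Op Γ | ∃ g : Γ, ∀ k, T (delta Γ k) = delta Γ (g * k)} =
      {T | ∃ g : Γ, ∀ a b, entry T a b = if a = g * b then 1 else 0} := Set.ext fun T => by
    refine exists_congr fun g => ⟨fun h a b => ?_, fun h k => lp.ext (funext fun a => ?_)⟩
    · refine (congrArg (fun ξ : H Γ => ξ a) (h b)).trans ?_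
      simp [delta, lp.single_apply, Pi.single_apply]
    · refine (h a k).trans ?_
      simp [delta, lp.single_apply, Pi.single_apply]
  exact congrArg (fun s : Set (Op Γ) => (Algebra.adjoin ℝ s).topologicalClosure) h

theorem subOnto {z : Z} (n : ℕ) (h : Vanish Γ pos) {I : Type}
    (θ : BCH.Cred Γ →ₙₐ[ℝ] BCH.Cstar Γ pos) (hθ : Continuous θ)
    (hc : ∀ T, BCH.IsCorner z T.1 (θ T).1)
    (D : MorData (R := BCH.Cred Γ) (J := BCH.Cstar Γ pos) I θ) :
    SubOnto (EuclideanSpace ℝ (Fin n)) (BCH.Cred Γ) (BCH.Cstar Γ pos) (BCH.Dstar Γ pos)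
      (IsCorner Γ (delta Γ) (delta Z) z) := by
  have k0 := suspOnto (R := BCH.Cred Γ) (J := BCH.Cstar Γ pos) (B := BCH.Dstar Γ pos)
    (Q := BCH.Dstar Γ pos ⧸ Cid Γ pos) (I := I)
  have k1 := k0 (roeExt Γ pos)
  have k2 := k1 (roeExt_isometry Γ pos) (roeExt_continuous Γ pos) n
  have k3 := k2 fun k c e he hc h1 =>
    h (OnePoint (EuclideanSpace ℝ (Fin n))) (Fin k) c e he hc fun i j y => by
      obtain ⟨a, ha⟩ := h1 i j y
      have h3 : (e i j y : Op Z) = c i j • (1 : Op Z) + (a : Op Z) := congrArg Subtype.val ha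
      rw [h3, add_sub_cancel_left]
      exact a.2
  have k4 := k3 θ hθ D
  have k5 := SubOnto.intro (T := EuclideanSpace ℝ (Fin n)) (R := BCH.Cred Γ)
    (C := BCH.Cstar Γ pos) (D := BCH.Dstar Γ pos) (cor := IsCorner Γ (delta Γ) (delta Z) z)
    θ (roeExt Γ pos).ι (fun T => by simp only [IsCorner, ent_eq]; exact hc T) fun _ => rfl
  exact k5 k4

variable [ProperSpace X] [MulAction Γ X] [IsIsometricSMul Γ X] {o : X}

theorem core (hG : Geom Γ o) (hS : SD.SubexpDecay fun r => {g : Γ | dist o (g • o) ≤ r})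
    (hZ : IsAmple Γ pos) (z : Z) (n : ℕ) : AssemblyOntoAt Γ pos z n := by
  have hA : BCH.IsAmple Γ pos := ⟨hZ.1, hZ.2, hZ.3, hZ.4⟩
  obtain ⟨I, θ, hθ, hc, ⟨D⟩⟩ := stMDATA Γ X Z o pos z hG hA
  have h := subOnto n (vanish hG hS hA) θ hθ hc D
  rw [← Dstar_eq, ← Cstar_eq, ← Cred_eq] at h
  exact h

theorem assemblyOnto (hG : Geom Γ o)
    (hS : SD.SubexpDecay fun r => {g : Γ | dist o (g • o) ≤ r}) : AssemblyOnto Γ := by
  have := PD.countable_of_proper o hG.proper
  have : Nonempty X := ⟨o⟩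
  obtain ⟨Z, _, pos, hZ⟩ := PD.exists_ample Γ X
  obtain ⟨z, -⟩ := (hZ.ample Set.univ isOpen_univ ⟨o, trivial⟩).nonempty
  have hA : IsAmple Γ pos := ⟨hZ.1, hZ.2, hZ.3, hZ.4⟩
  exact ⟨X, _, ‹_›, _, ‹_›, o, Z, _, pos, z, hG.cn, hG.proper, hG.cocpt, hA,
    fun n => core hG hS hA z n⟩

end Pool.Agent.Lib.BCS
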