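import Pool.Agent.Lib.BCH.KDefs

/-! Surjectivity of the real assembly map in the form of Higson and Roe: definitions. -/

noncomputable section

open scoped ZeroAtInfty InnerProductSpace

namespace Pool.Agent.Lib.BCS

open Pool.Agent.Lib.BCH

section

variable {R J A Q : Type}
  [NonUnitalRing R] [Module ℝ R] [IsScalarTower ℝ R R] [SMulCommClass ℝ R R]
  [NonUnitalRing J] [Module ℝ J] [IsScalarTower ℝ J J] [SMulCommClass ℝ J J]
  [NonUnitalRing A] [Module ℝ A] [IsScalarTower ℝ A A] [SMulCommClass ℝ A A]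
  [NonUnitalRing Q] [Module ℝ Q] [IsScalarTower ℝ Q Q] [SMulCommClass ℝ Q Q]

/-- The map `K0 (R⁺) → K0 (J⁺)` induced by `θ : R → J`. -/
def kmap (θ : R →ₙₐ[ℝ] J) : K0 (Unitization ℝ R) → K0 (Unitization ℝ J) :=
  K0.map (unitMap θ : Unitization ℝ R →ₙ+* Unitization ℝ J)

/-- `θ` induces a bijection `K0 R → K0 J`, and the index map of `0 → J → A → Q → 0` followed by
the inverse of this bijection is onto: every class is the index of an invertible matrix. -/
def IndexOnto (θ : R →ₙₐ[ℝ] J) (E : Ext J A Q) : Prop :=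
  Set.BijOn (kmap θ) (K0r R) (K0r J) ∧
    ∀ y ∈ K0r R, ∃ (k : ℕ) (a : GLq Q k), E.indexOf a = kmap θ y

end

/-- `IndexOnto` for the algebras of functions on `T` vanishing at infinity, with values in `R`,
`J`, `A`, and the maps induced by `θ₀` and `ι₀`; so `Q` is `C₀(T, A) / C₀(T, J)`. -/
inductive SuspOnto (T : Type) [TopologicalSpace T] {R J A : Type}
    [NonUnitalNormedRing R] [NormedSpace ℝ R] [IsScalarTower ℝ R R] [SMulCommClass ℝ R R]
    [NonUnitalNormedRing J] [NormedSpace ℝ J] [IsScalarTower ℝ J J] [SMulCommClass ℝ J J]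
    [NonUnitalNormedRing A] [NormedSpace ℝ A] [IsScalarTower ℝ A A] [SMulCommClass ℝ A A]
    (θ₀ : R → J) (ι₀ : J → A) : Prop
  | intro (Q : Type) [NonUnitalRing Q] [Module ℝ Q] [IsScalarTower ℝ Q Q] [SMulCommClass ℝ Q Q]
      (θ : C₀(T, R) →ₙₐ[ℝ] C₀(T, J)) (E : Ext C₀(T, J) C₀(T, A) Q)
      (hθ : ∀ f t, θ f t = θ₀ (f t)) (hE : ∀ f t, E.ι f t = ι₀ (f t)) (h : IndexOnto θ E) :
      SuspOnto T θ₀ ι₀

section

variable {B B' : Type} [NormedRing B] [NormedAlgebra ℝ B] [NormedRing B'] [NormedAlgebra ℝ B']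

/-- The closed unital subalgebra generated by a set. -/
def gen (S : Set B) : Subalgebra ℝ B := (Algebra.adjoin ℝ S).topologicalClosure

/-- The closed subalgebra without unit generated by a set. -/
def gen₀ (S : Set B) : NonUnitalSubalgebra ℝ B := (NonUnitalAlgebra.adjoin ℝ S).topologicalClosure

instance normedSpaceSub (C : NonUnitalSubalgebra ℝ B) : NormedSpace ℝ C where
  norm_smul_le r x := norm_smul_le r x.1

/-- `SuspOnto` for subalgebras: `θ₀ : R → C` is given by the relation `cor`, and `ι₀ : C → D` is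
the inclusion. -/
inductive SubOnto (T : Type) [TopologicalSpace T] (R : Subalgebra ℝ B')
    (C : NonUnitalSubalgebra ℝ B) (D : Subalgebra ℝ B) (cor : B' → B → Prop) : Prop
  | intro (θ₀ : R → C) (ι₀ : C → D) (hθ : ∀ r : R, cor r (θ₀ r)) (hι : ∀ c, (ι₀ c : B) = c)
      (h : SuspOnto T θ₀ ι₀) : SubOnto T R C D cor

end

section

variable (Γ : Type) {X Z H H' : Type} [Group Γ] [MetricSpace X] [MulAction Γ Z]
  [NormedAddCommGroup H] [InnerProductSpace ℝ H] [NormedAddCommGroup H'] [InnerProductSpace ℝ H']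

/-- The matrix coefficient of `T` with respect to the family `δ`. -/
def ent (δ : Z → H) (T : H →L[ℝ] H) (a b : Z) : ℝ := ⟪δ a, T (δ b)⟫_ℝ

/-- `M` is multiplication by the function `φ ∘ pos`. -/
def IsMul (δ : Z → H) (pos : Z → X) (φ : C₀(X, ℝ)) (M : H →L[ℝ] H) : Prop :=
  ∀ z, M (δ z) = φ (pos z) • δ z

/-- `T` is `Γ`-invariant and has finite propagation. -/
def Controlled (δ : Z → H) (pos : Z → X) (T : H →L[ℝ] H) : Prop :=
  (∀ (g : Γ) (a b : Z), ent δ T (g • a) (g • b) = ent δ T a b) ∧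
    ∃ r : ℝ, ∀ a b : Z, r < dist (pos a) (pos b) → ent δ T a b = 0

/-- The compact operators. -/
def Cpt (H : Type) [NormedAddCommGroup H] [InnerProductSpace ℝ H] : Set (H →L[ℝ] H) :=
  {T | IsCompactOperator T}

/-- `T` commutes with `C₀(X)` up to compact operators. -/
def Pseudolocal (δ : Z → H) (pos : Z → X) (T : H →L[ℝ] H) : Prop :=
  ∀ φ M, IsMul δ pos φ M → T * M - M * T ∈ Cpt H

/-- `T φ` and `φ T` are compact for all `φ` in `C₀(X)`. -/
def LocCompact (δ : Z → H) (pos : Z → X) (T : H →L[ℝ] H) : Prop :=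
  ∀ φ M, IsMul δ pos φ M → T * M ∈ Cpt H ∧ M * T ∈ Cpt H

/-- `D*(X)^Γ`: the closed algebra generated by the controlled pseudolocal operators. -/
def Dstar (δ : Z → H) (pos : Z → X) : Subalgebra ℝ (H →L[ℝ] H) :=
  gen {T | Controlled Γ δ pos T ∧ Pseudolocal δ pos T}

/-- `C*(X)^Γ`: the closed algebra generated by the controlled locally compact operators. -/
def Cstar (δ : Z → H) (pos : Z → X) : NonUnitalSubalgebra ℝ (H →L[ℝ] H) :=
  gen₀ {T | Controlled Γ δ pos T ∧ LocCompact δ pos T}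

/-- The reduced group algebra: the closed algebra generated by the left translations. -/
def Cred (δ' : Γ → H') : Subalgebra ℝ (H' →L[ℝ] H') :=
  gen {T | ∃ g : Γ, ∀ k, T (δ' k) = δ' (g * k)}

/-- `S` is the operator `T` moved to the orbit of `z`, and zero elsewhere. -/
def IsCorner (δ' : Γ → H') (δ : Z → H) (z : Z) (T : H' →L[ℝ] H') (S : H →L[ℝ] H) : Prop :=
  (∀ k k' : Γ, ent δ S (k⁻¹ • z) (k'⁻¹ • z) = ent δ' T k k') ∧
    ∀ a b : Z, a ∉ MulAction.orbit Γ z ∨ b ∉ MulAction.orbit Γ z → ent δ S a b = 0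

/-- The statement for Hilbert spaces with distinguished bases. -/
def OntoFor (δ' : Γ → H') (δ : Z → H) (pos : Z → X) (z : Z) (n : ℕ) : Prop :=
  SubOnto (EuclideanSpace ℝ (Fin n)) (Cred Γ δ') (Cstar Γ δ pos) (Dstar Γ δ pos)
    (IsCorner Γ δ' δ z)

open Classical in
/-- The standard basis of `ℓ²(Z, ℝ)`. -/
def delta (Z : Type) (z : Z) : lp (fun _ : Z => ℝ) 2 := lp.single 2 z 1

/-- The assembly map `KO_(n+1) (D*(X)^Γ / C*(X)^Γ) → KO_n (C*(X)^Γ) ≃ KO_n (C*_r Γ)` of the
module `ℓ²(Z, ℝ)` is onto. -/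
def AssemblyOntoAt (pos : Z → X) (z : Z) (n : ℕ) : Prop :=
  OntoFor Γ (delta Γ) (delta Z) pos z n

variable [MulAction Γ X]

/-- `ℓ²(Z)` is an ample equivariant `X`-module: `Z` is a countable free `Γ`-set with an equivariant
map to `X` such that every nonempty open set has infinite preimage. -/
structure IsAmple (pos : Z → X) : Prop where
  countable : Countable Z
  free : ∀ (g : Γ) (z : Z), g • z = z → g = 1
  equivariant : ∀ (g : Γ) (z : Z), pos (g • z) = g • pos z
  ample : ∀ U : Set X, IsOpen U → U.Nonempty → (pos ⁻¹' U).Infinite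

end

end Pool.Agent.Lib.BCS
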