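import Pool.Agent.Lib.BCS.Defs
import Pool.Agent.Lib.SD.CATDefs

/-! Surjectivity of the assembly map of a group with a cocompact CAT(0) model. -/

namespace Pool.Agent.Lib.BCS

/-- `Γ` acts properly, cocompactly and isometrically on a proper CAT(0) space `X` (so `X` is a
universal proper `Γ`-space), and for an ample module over `X` the real Baum-Connes assembly map is
onto in every degree. -/
def AssemblyOnto (Γ : Type) [Group Γ] : Prop :=
  ∃ (X : Type) (_ : MetricSpace X) (_ : ProperSpace X) (_ : MulAction Γ X)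
    (_ : IsIsometricSMul Γ X) (o : X) (Z : Type) (_ : MulAction Γ Z) (pos : Z → X) (z : Z),
    SD.HasCNMidpoints X ∧ (∀ R : ℝ, {g : Γ | dist o (g • o) ≤ R}.Finite) ∧
    (∃ D : ℝ, ∀ x : X, ∃ g : Γ, dist x (g • o) ≤ D) ∧ IsAmple Γ pos ∧
    ∀ n : ℕ, AssemblyOntoAt Γ pos z n

end Pool.Agent.Lib.BCS
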